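import Mathlib

set_option autoImplicit false

namespace Pool.Agent.Results.MP_334179_al.Yes

open Polynomial Matrix

/-- The alphabet `{-(|q|-1), …, |q|-1}` with its natural order. -/
abbrev Dig (q : ℤ) := Set.Ioo (-|q|) |q|

/-- The polynomial `∑ aᵢ xⁱ` encoded by the string `a₀ a₁ ⋯`. -/
noncomputable def poly {q : ℤ} : List (Dig q) → ℤ[X]
  | [] => 0
  | a :: w => C (a : ℤ) + X * poly w

noncomputable def t (p q : ℤ) : ℤ[X] := X ^ 2 + C p * X - C q

/-- Strings that are length-lexicographically least in their equivalence class. -/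
def Dom (p q : ℤ) : Set (List (Dig q)) :=
  {w | ∀ u, List.Shortlex (· < ·) u w → ¬ t p q ∣ poly u - poly w}

/-- The two coefficients of the remainder modulo `t`. -/
noncomputable def ψ (p : ℤ) {q : ℤ} (w : List (Dig q)) : Fin 2 → ℤ :=
  fun i => (poly w %ₘ t p q).coeff i

/-- Convolution of two strings; `none` is the padding symbol. -/
def conv {α : Type} (u v : List α) : List (Option α × Option α) :=
  (List.range (max u.length v.length)).map fun k => (u[k]?, v[k]?)

/-- The graph of `A` is FA-recognizable with respect to `ψ`. -/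
def Recognizable (p q : ℤ) (A : Matrix (Fin 2) (Fin 2) ℤ) : Prop :=
  Language.IsRegular
    {x | ∃ u ∈ Dom p q, ∃ v ∈ Dom p q, ψ p v = A *ᵥ ψ p u ∧ x = conv u v}

variable (p : ℤ) {q : ℤ}

def M (q : ℤ) : Matrix (Fin 2) (Fin 2) ℤ := !![0, q; 1, -p]

def ev : List (Option (Dig q)) → Fin 2 → ℤ
  | [] => 0
  | a :: w => ![a.elim 0 Subtype.val, 0] + M p q *ᵥ ev w

theorem ev_append (x y : List (Option (Dig q))) :
    ev p (x ++ y) = ev p x + M p q ^ x.length *ᵥ ev p y := by
  induction x with
  | nil => simp [ev]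
  | cons a x ih =>
    rw [List.cons_append, ev, ev, ih, mulVec_add, mulVec_mulVec, List.length_cons, pow_succ',
      add_assoc]

theorem t_monic : (t p q).Monic := by unfold t; monicity!

theorem t_deg : (t p q).degree = 2 := by unfold t; compute_degree!

theorem ψ_eq (w : List (Dig q)) : ψ p w = ev p (w.map some) := by
  have h1 : t p q ∣ poly w - (C (ev p (w.map some) 0) + C (ev p (w.map some) 1) * X) := by
    induction w with
    | nil => simp [poly, ev]
    | cons a w ih =>
      obtain ⟨g, hg⟩ := ih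
      refine ⟨X * g + C (ev p (w.map some) 1), ?_⟩
      simp only [poly, List.map_cons, ev, M, mulVec, dotProduct, Fin.sum_univ_two, Pi.add_apply]
      simp only [Option.elim, of_apply, cons_val_zero, cons_val_one, cons_val_fin_one,
        cons_val', map_add, map_mul, map_neg, map_zero, map_one]
      rw [sub_eq_iff_eq_add.mp hg, t]
      ring
  funext i
  rw [ψ, modByMonic_eq_of_dvd_sub (t_monic p) h1, (modByMonic_eq_self_iff (t_monic p)).mpr (by
    rw [t_deg]; compute_degree!)]
  fin_cases i <;> simp [coeff_X, coeff_C, -eq_intCast]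

theorem ev_pad (N : ℕ) (u : List (Dig q)) (h : u.length ≤ N) :
    ev p ((List.range N).map fun k => u[k]?) = ψ p u := by
  rw [ψ_eq]
  induction N generalizing u with
  | zero => simp [List.length_eq_zero_iff.mp (Nat.le_zero.mp h)]
  | succ N ih =>
    rw [List.range_succ_eq_map, List.map_cons, List.map_map]
    cases u with
    | nil => simpa [ev, Function.comp_def] using congrArg (M p q *ᵥ ·) (ih [] (by simp))
    | cons a u => simpa [ev, Function.comp_def] using congrArg (M p q *ᵥ ·) (ih u (by simpa using h))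

theorem ψ_surj (h : 1 + |p| < |q|) (z : Fin 2 → ℤ) : ∃ u ∈ Dom p q, ψ p u = z := by
  have hq : q ≠ 0 := by rintro rfl; have := abs_nonneg p; simp at h; omega
  have h0 : ∀ (d : Dig q) (a b : ℤ), (∃ w : List (Dig q), ψ p w = ![a, b]) →
      ∃ w : List (Dig q), ψ p w = ![d + q * b, a - p * b] := by
    rintro d a b ⟨w, hw⟩
    refine ⟨d :: w, ?_⟩
    rw [ψ_eq, List.map_cons, ev, ← ψ_eq, hw]
    ext i
    fin_cases i <;> simp [M, sub_eq_add_neg, mul_comm]
  have h1 : ∀ (n : ℕ) (a b : ℤ), a.natAbs + b.natAbs ≤ n →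
      ∃ w : List (Dig q), ψ p w = ![a, b] := fun n => by
    have hz : ∃ w : List (Dig q), ψ p w = ![0, 0] := ⟨[], by
      rw [ψ_eq]; ext i; fin_cases i <;> rfl⟩
    induction n with
    | zero =>
      intro a b hab
      obtain ⟨rfl, rfl⟩ : a = 0 ∧ b = 0 := by omega
      exact hz
    | succ n ih =>
      have key : ∀ a b : ℤ, a ≠ 0 → a.natAbs + b.natAbs ≤ n + 1 →
          ∃ w : List (Dig q), ψ p w = ![a, b] := fun a b ha hab => by
        have h2 : |a.tmod q| < |q| := by
          rw [Int.abs_eq_natAbs, Int.abs_eq_natAbs, Int.natAbs_tmod]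
          exact_mod_cast Nat.mod_lt _ (Int.natAbs_pos.mpr hq)
        have h3 := h0 ⟨a.tmod q, abs_lt.mp h2⟩ (b + p * a.tdiv q) (a.tdiv q) (ih _ _ (by
          have h4 := Int.natAbs_add_le b (p * a.tdiv q)
          have h5 := Nat.mod_add_div a.natAbs q.natAbs
          have h6 : 1 + p.natAbs < q.natAbs := by
            rw [Int.abs_eq_natAbs, Int.abs_eq_natAbs] at h; exact_mod_cast h
          have h7 := Int.natAbs_pos.mpr ha
          rw [Int.natAbs_mul, Int.natAbs_tdiv] at h4
          rw [Int.natAbs_tdiv]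
          change _ + a.natAbs / q.natAbs ≤ n
          change _ ≤ _ + _ * (a.natAbs / q.natAbs) at h4
          generalize a.natAbs / q.natAbs = k at *
          rcases k with _ | k
          · omega
          · have h8 := Nat.mul_le_mul_right (k + 1) (Nat.succ_le_of_lt h6)
            rw [Nat.succ_mul, add_mul] at h8
            omega))
        simpa [Int.tmod_add_mul_tdiv] using h3
      intro a b hab
      rcases ne_or_eq a 0 with ha | rfl
      · exact key a b ha hab
      rcases ne_or_eq b 0 with hb | rfl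
      · simpa using h0 ⟨0, by simpa using hq⟩ b 0 (key b 0 hb (by simpa using hab))
      · exact hz
  obtain ⟨w, hw⟩ := h1 _ (z 0) (z 1) le_rfl
  obtain ⟨u, hu, h2⟩ := (List.Shortlex.wf (wellFounded_lt (α := Dig q))).has_min
    {u | t p q ∣ poly u - poly w} ⟨w, by simp⟩
  refine ⟨u, fun v hv h3 => h2 v (by simpa using dvd_add h3 hu) hv, ?_⟩
  ext i
  rw [ψ, modByMonic_eq_of_dvd_sub (t_monic p) hu, ← ψ, hw]
  fin_cases i <;> rfl

theorem M_pow (h : IsCoprime p q) (m : ℕ) :
    ∃ a b, IsCoprime b q ∧ M p q ^ (m + 1) = !![q * a, q * b; b, q * a - p * b] := by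
  induction m with
  | zero => exact ⟨0, 1, isCoprime_one_left, by simp [M]⟩
  | succ m ih =>
    obtain ⟨a, b, h1, h2⟩ := ih
    refine ⟨b, q * a - p * b, ?_, ?_⟩
    · rw [sub_eq_neg_add]
      exact (h.mul_left h1).neg_left.add_mul_left_left a
    · rw [pow_succ, h2, M]
      ext i j
      fin_cases i <;> fin_cases j <;> simp <;> ring

theorem commute_of_rec (h : 1 + |p| < |q|) (A : Matrix (Fin 2) (Fin 2) ℤ)
    (hA : Recognizable p q A) : ∃ m, A * M p q ^ (m + 1) = M p q ^ (m + 1) * A := by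
  obtain ⟨σ, _, D, hD⟩ := hA
  let e1 := fun x : List (Option (Dig q) × Option (Dig q)) => ev p (x.map Prod.fst)
  let e2 := fun x : List (Option (Dig q) × Option (Dig q)) => ev p (x.map Prod.snd)
  have h1 : ∀ x ∈ D.accepts, e2 x = A *ᵥ e1 x := by
    rw [hD]
    rintro _ ⟨u, -, v, -, h2, rfl⟩
    simp only [e1, e2, conv, List.map_map, Function.comp_def]
    rw [ev_pad p _ u (le_max_left ..), ev_pad p _ v (le_max_right ..), h2]
  have h2 : ∀ n : ℕ, ∃ x ∈ D.accepts, e1 x = ![(n : ℤ), n ^ 2] := fun n => by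
    obtain ⟨u, hu, h3⟩ := ψ_surj p h ![(n : ℤ), n ^ 2]
    obtain ⟨v, hv, h4⟩ := ψ_surj p h (A *ᵥ ψ p u)
    refine ⟨conv u v, hD ▸ ⟨u, hu, v, hv, h4, rfl⟩, ?_⟩
    simp only [e1, conv, List.map_map, Function.comp_def]
    rw [ev_pad p _ u (le_max_left ..), h3]
  choose x hx h3 using h2
  have h4 : ∀ k : ℕ, ∃ π : List (Option (Dig q) × Option (Dig q)), π.length = k ∧
      ∃ y : Fin 3 → List _, (∀ i, π ++ y i ∈ D.accepts) ∧
        (M p q ^ k * (of fun i : Fin 2 => e1 (y i.succ) - e1 (y 0))ᵀ).det ≠ 0 := fun k => by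
    have := (List.finite_length_le (Option (Dig q) × Option (Dig q)) k).to_subtype
    obtain ⟨⟨π, hπ⟩, h5⟩ := Finite.exists_infinite_fiber fun n : ℕ =>
      (⟨(x n).take k, List.length_take_le ..⟩ : {l : List _ | l.length ≤ k})
    have h6 := Set.infinite_coe_iff.mp h5
    obtain ⟨a, ha, -⟩ := h6.exists_gt 0
    obtain ⟨b, hb, hab⟩ := h6.exists_gt a
    obtain ⟨c, hc, hbc⟩ := h6.exists_gt b
    replace ha : (x a).take k = π := congrArg Subtype.val ha
    replace hb : (x b).take k = π := congrArg Subtype.val hb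
    replace hc : (x c).take k = π := congrArg Subtype.val hc
    have h7 : π.length = k := by
      by_contra h7
      have h8 : ∀ n, (x n).take k = π → x n = π := fun n hn => by
        rw [← hn, List.length_take] at h7
        rw [← hn, List.take_of_length_le (by omega)]
      have := congrFun ((h3 a).symm.trans (((h8 a ha).trans (h8 b hb).symm) ▸ h3 b)) 0
      simp at this
      omega
    have h8 : ∀ n, (x n).take k = π → M p q ^ k *ᵥ e1 ((x n).drop k) =
        ![(n : ℤ), n ^ 2] - e1 π := fun n hn => by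
      rw [← h3 n, eq_sub_iff_add_eq', ← List.take_append_drop k (x n), hn]
      simp only [e1, List.map_append, ev_append, List.length_map, h7]
      rw [← h7, List.drop_left]
    refine ⟨π, h7, ![(x a).drop k, (x b).drop k, (x c).drop k], fun i => ?_, ?_⟩
    · fin_cases i
      · simpa [← ha] using hx a
      · simpa [← hb] using hx b
      · simpa [← hc] using hx c
    · have h9 : M p q ^ k * (of fun i : Fin 2 => e1 (![(x a).drop k, (x b).drop k, (x c).drop k]
          i.succ) - e1 ((x a).drop k))ᵀ = !![(b : ℤ) - a, c - a; b ^ 2 - a ^ 2, c ^ 2 - a ^ 2] := by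
        ext i j
        change (M p q ^ k *ᵥ (e1 (![(x a).drop k, (x b).drop k, (x c).drop k] j.succ) -
          e1 ((x a).drop k))) i = _
        rw [mulVec_sub, h8 a ha]
        fin_cases j
        · erw [h8 b hb]; fin_cases i <;> simp
        · erw [h8 c hc]; fin_cases i <;> simp
      erw [h9]
      rw [det_fin_two_of, show ((b : ℤ) - a) * (c ^ 2 - a ^ 2) - (c - a) * (b ^ 2 - a ^ 2) =
        (b - a) * (c - a) * (c - b) by ring]
      refine mul_ne_zero (mul_ne_zero ?_ ?_) ?_ <;> omega
  choose π h5 y h6 h7 using h4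
  obtain ⟨k, l, h8, h9⟩ : ∃ k l, k < l ∧ D.eval (π k) = D.eval (π l) := by
    obtain ⟨k, l, h8, h9⟩ := Finite.exists_ne_map_eq_of_infinite fun k => D.eval (π k)
    rcases lt_or_gt_of_ne h8 with h | h
    exacts [⟨k, l, h, h9⟩, ⟨l, k, h, h9.symm⟩]
  have h10 : ∀ j, (∀ i, π j ++ y k i ∈ D.accepts) →
      M p q ^ j * (of fun i : Fin 2 => e2 (y k i.succ) - e2 (y k 0))ᵀ =
        A * (M p q ^ j * (of fun i : Fin 2 => e1 (y k i.succ) - e1 (y k 0))ᵀ) := fun j hj => by
    have h11 : ∀ i, M p q ^ j *ᵥ e2 (y k i) =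
        A *ᵥ e1 (π j) + (A * M p q ^ j) *ᵥ e1 (y k i) - e2 (π j) := fun i => by
      have := h1 _ (hj i)
      simp only [e1, e2, List.map_append, ev_append, List.length_map, h5, mulVec_add,
        mulVec_mulVec] at this
      exact eq_sub_iff_add_eq'.mpr this
    rw [← Matrix.mul_assoc]
    ext a b
    change (M p q ^ j *ᵥ (e2 (y k b.succ) - e2 (y k 0))) a =
      ((A * M p q ^ j) *ᵥ (e1 (y k b.succ) - e1 (y k 0))) a
    rw [mulVec_sub, mulVec_sub, h11, h11]
    simp only [Pi.sub_apply, Pi.add_apply]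
    ring
  have h11 := h10 l fun i => by
    have := h6 k i
    rw [DFA.mem_accepts, DFA.eval, DFA.evalFrom_of_append] at this ⊢
    rwa [show D.evalFrom D.start (π k) = D.evalFrom D.start (π l) from h9] at this
  obtain ⟨m, rfl⟩ := Nat.exists_eq_add_of_lt h8
  rw [add_assoc, add_comm k, pow_add, Matrix.mul_assoc, Matrix.mul_assoc, h10 k (h6 k),
    ← Matrix.mul_assoc, ← Matrix.mul_assoc A] at h11
  exact ⟨m, ((isRegular_of_isLeftRegular_det (IsRegular.of_ne_zero (h7 k)).1).2 h11).symm⟩

theorem result : ∃ A : Matrix.SpecialLinearGroup (Fin 2) ℤ, 2 < |A.1.trace| ∧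
    ∀ p q : ℤ, 1 + |p| < |q| → Int.gcd p q = 1 → ¬ Recognizable p q A.1 := by
  refine ⟨⟨!![2, 1; 1, 1], by simp [det_fin_two_of]⟩, by simp [trace_fin_two_of],
    fun p q h1 h2 h3 => ?_⟩
  obtain ⟨m, h4⟩ := commute_of_rec p h1 _ h3
  obtain ⟨a, b, h5, h6⟩ := M_pow p (Int.isCoprime_iff_gcd_eq_one.mpr h2) m
  have h7 := congrFun (congrFun (h6 ▸ h4) 0) 0
  have h8 := abs_nonneg p
  have h9 : (q - 1) * b = 0 := by simp at h7; linarith
  rcases mul_eq_zero.mp h9 with h | rfl
  · rw [sub_eq_zero.mp h, abs_one] at h1; omega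
  · rcases Int.isUnit_iff.mp (isCoprime_zero_left.mp h5) with rfl | rfl <;> simp at h1 <;> omega

end Pool.Agent.Results.MP_334179_al.Yes
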